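import Pool.Agent.helper51.VF.SpecB

/-! # vf:NFX (MP_74cfa5_ag): slices at nonsingular primes -/

set_option autoImplicit false

namespace Pool.Agent.VF

open Pool.Agent.PC Pool.Agent.QS

universe u

theorem NFX : NFX_stmt.{u} := by
  intro k A F K _ _ _ _ _ _ _ _ _ _ _ _ _ _ Q hQ hS
  classical
  unfold Sing at hS
  push Not at hS
  obtain ⟨δ₀, hloc, hfix⟩ := hS
  unfold Fix at hfix
  push Not at hfix
  obtain ⟨u, hu⟩ := hfix
  obtain ⟨a₀, s₀, hs₀, hc⟩ := hloc u
  have ha₀ : a₀ ∉ Q := fun h => hu ⟨a₀, s₀, hs₀, h, hc⟩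
  have hne : ∀ x : A, x ∉ Q → algebraMap A K x ≠ 0 := by
    intro x hx h0
    apply hx
    have : x = 0 := IsFractionRing.injective A K (by rw [h0, map_zero])
    rw [this]
    exact Q.zero_mem
  have ha := hne a₀ ha₀
  have hs := hne s₀ hs₀
  have hc0 : δ₀ (algebraMap A K u) ≠ 0 := by
    rw [hc]
    exact div_ne_zero ha hs
  let δ : Derivation F K K := (δ₀ (algebraMap A K u))⁻¹ • δ₀
  have hδ : ∀ x, δ x = (δ₀ (algebraMap A K u))⁻¹ * δ₀ x := fun x => rfl
  have hden : ∀ a : A, ∃ t : A, t ∉ Q ∧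
      ∃ b : A, algebraMap A K t * δ (algebraMap A K a) = algebraMap A K b := by
    intro a
    obtain ⟨b, t, ht, hb⟩ := hloc a
    have ht' := hne t ht
    refine ⟨a₀ * t, fun h => (hQ.mem_or_mem h).elim ha₀ ht, s₀ * b, ?_⟩
    rw [hδ, hc, hb, map_mul, map_mul]
    field_simp
  choose t ht b hb using hden
  obtain ⟨S, hSt⟩ := (inferInstance : Algebra.FiniteType k A).out
  refine ⟨δ, u, ∏ a ∈ S, t a, ?_, ?_, ?_⟩
  · intro h
    obtain ⟨a, -, ha'⟩ := (hQ.prod_mem_iff).1 h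
    exact ht a ha'
  · rw [hδ, inv_mul_cancel₀ hc0]
  · intro a
    have hmem : a ∈ Algebra.adjoin k (S : Set A) := by rw [hSt]; trivial
    induction hmem using Algebra.adjoin_induction with
    | mem x hx =>
      have hx' : x ∈ S := hx
      refine ⟨(∏ a ∈ S.erase x, t a) * b x, ?_⟩
      rw [← Finset.mul_prod_erase S t hx', map_mul, map_mul, mul_right_comm, hb x, mul_comm]
    | algebraMap r =>
      refine ⟨0, ?_⟩
      have h1 : algebraMap A K (algebraMap k A r) = algebraMap F K (algebraMap k F r) := by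
        rw [← IsScalarTower.algebraMap_apply k A K, ← IsScalarTower.algebraMap_apply k F K]
      rw [h1, Derivation.map_algebraMap, mul_zero, map_zero]
    | add x y _ _ hx hy =>
      obtain ⟨b₁, h₁⟩ := hx
      obtain ⟨b₂, h₂⟩ := hy
      refine ⟨b₁ + b₂, ?_⟩
      rw [map_add, map_add, mul_add, h₁, h₂, map_add]
    | mul x y _ _ hx hy =>
      obtain ⟨b₁, h₁⟩ := hx
      obtain ⟨b₂, h₂⟩ := hy
      refine ⟨x * b₂ + y * b₁, ?_⟩
      rw [map_mul, Derivation.leibniz, smul_eq_mul, smul_eq_mul, map_add, map_mul, map_mul,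
        ← h₁, ← h₂]
      ring

end Pool.Agent.VF
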